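import Pool.Agent.H20.RT.Stmts

/-! Project RT, row E0: the concrete evaluation 11222 -> ... -> 123334444 in nine steps. -/

set_option autoImplicit false

namespace Pool.RT

theorem E0_thm (h : STPStmt) : E0Stmt := by
  have s0 : T (Wd 2 3 0 0 0 0 0 0 0) = Wd 0 0 4 1 0 0 0 0 0 := by
    refine h (wl 2 3 0 0 0 0 0 0 0) [3, 3, 4, 3, 3] 0 0 4 1 0 0 0 0 0 ?_ ?_ ?_ ?_ ?_ ?_ ?_ ?_ ?_ ?_ ?_ ?_ <;> decide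
  have s1 : T (Wd 0 0 4 1 0 0 0 0 0) = Wd 0 0 0 0 0 3 2 0 0 := by
    refine h (wl 0 0 4 1 0 0 0 0 0) [7, 6, 6, 6, 7] 0 0 0 0 0 3 2 0 0 ?_ ?_ ?_ ?_ ?_ ?_ ?_ ?_ ?_ ?_ ?_ ?_ <;> decide
  have s2 : T (Wd 0 0 0 0 0 3 2 0 0) = Wd 1 0 2 3 0 0 0 0 0 := by
    refine h (wl 0 0 0 0 0 3 2 0 0) [3, 4, 3, 4, 4, 1] 1 0 2 3 0 0 0 0 0 ?_ ?_ ?_ ?_ ?_ ?_ ?_ ?_ ?_ ?_ ?_ ?_ <;> decide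
  have s3 : T (Wd 1 0 2 3 0 0 0 0 0) = Wd 0 0 0 0 2 0 4 0 0 := by
    refine h (wl 1 0 2 3 0 0 0 0 0) [5, 7, 7, 7, 7, 5] 0 0 0 0 2 0 4 0 0 ?_ ?_ ?_ ?_ ?_ ?_ ?_ ?_ ?_ ?_ ?_ ?_ <;> decide
  have s4 : T (Wd 0 0 0 0 2 0 4 0 0) = Wd 1 1 3 0 2 0 0 0 0 := by
    refine h (wl 0 0 0 0 2 0 4 0 0) [2, 3, 5, 5, 3, 3, 1] 1 1 3 0 2 0 0 0 0 ?_ ?_ ?_ ?_ ?_ ?_ ?_ ?_ ?_ ?_ ?_ ?_ <;> decide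
  have s5 : T (Wd 1 1 3 0 2 0 0 0 0) = Wd 0 0 0 0 0 5 2 0 0 := by
    refine h (wl 1 1 3 0 2 0 0 0 0) [6, 7, 6, 6, 6, 7, 6] 0 0 0 0 0 5 2 0 0 ?_ ?_ ?_ ?_ ?_ ?_ ?_ ?_ ?_ ?_ ?_ ?_ <;> decide
  have s6 : T (Wd 0 0 0 0 0 5 2 0 0) = Wd 1 0 4 3 0 0 0 0 0 := by
    refine h (wl 0 0 0 0 0 5 2 0 0) [3, 4, 3, 3, 3, 4, 4, 1] 1 0 4 3 0 0 0 0 0 ?_ ?_ ?_ ?_ ?_ ?_ ?_ ?_ ?_ ?_ ?_ ?_ <;> decide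
  have s7 : T (Wd 1 0 4 3 0 0 0 0 0) = Wd 0 0 0 0 2 2 4 0 0 := by
    refine h (wl 1 0 4 3 0 0 0 0 0) [5, 7, 7, 6, 6, 7, 7, 5] 0 0 0 0 2 2 4 0 0 ?_ ?_ ?_ ?_ ?_ ?_ ?_ ?_ ?_ ?_ ?_ ?_ <;> decide
  have s8 : T (Wd 0 0 0 0 2 2 4 0 0) = Wd 1 1 3 4 0 0 0 0 0 := by
    refine h (wl 0 0 0 0 2 2 4 0 0) [2, 3, 4, 4, 4, 4, 3, 3, 1] 1 1 3 4 0 0 0 0 0 ?_ ?_ ?_ ?_ ?_ ?_ ?_ ?_ ?_ ?_ ?_ ?_ <;> decide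
  have e : Wd 1 1 3 4 0 0 0 0 0 = Nat.ofDigits 10 (List.replicate 4 4 ++ List.replicate 3 3 ++ [2, 1]) := by
    decide
  unfold E0Stmt
  simp only [Function.iterate_succ, Function.iterate_zero, Function.comp, id]
  rw [s0, s1, s2, s3, s4, s5, s6, s7, s8, e]

end Pool.RT
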